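import Mathlib
import Pool.Graph.R_pool_sql_team_39128cda.Results.MP_e83726_nt.Gaps
import Pool.Graph.R_seed8.Helper256.KM.Mertens

set_option autoImplicit false

namespace Pool.Agent.H31.RG

open Pool.Agent.Results.MP_e83726_nt.Gaps (q P HP)

/-- the product of `p / (p - 1)` over the odd primes up to `x` -/
noncomputable def E (x : ℕ) : ℝ := ∏ p ∈ (Finset.Icc 3 x).filter Nat.Prime, (p : ℝ) / (p - 1)

/-- Mertens: order of magnitude -/
def StM1 : Prop := ∃ c C : ℝ, 0 < c ∧ 0 < C ∧ ∀ x : ℕ, 3 ≤ x →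
  c * Real.log x ≤ E x ∧ E x ≤ C * Real.log x

/-- Mertens: a definite increase between `ε x` and `x` -/
def StM2 : Prop := ∃ ε δ : ℝ, 0 < ε ∧ ε < 1 ∧ 0 < δ ∧ ∃ x₀ : ℕ, ∀ x y : ℕ, x₀ ≤ x →
  (y : ℝ) ≤ ε * x → E y + δ ≤ E x

/-- Chebyshev for the product `P m` of the first `m` odd primes (`q m` is the next one) -/
def StB : Prop := ∃ c C : ℝ, 0 < c ∧ 0 < C ∧ ∀ m : ℕ, 1 ≤ m →
  c * q m ≤ Real.log (P m) ∧ Real.log (P m) ≤ C * q m

/-- the product over the first `m` odd primes -/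
def StL : Prop := ∀ m : ℕ, HP m = E (q m - 1)

end Pool.Agent.H31.RG
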