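import Pool.Agent.H31.RG.Up

set_option autoImplicit false

namespace Pool.Agent.H31.RG

open Filter Topology
open Pool.Agent.Results.MP_e83726_nt.Gaps (q P HP H ND nd H_mono H_big small P_odd P_mono H_P
  HP_mono q_mono q_prime q_ge q_le q_surj one_le fac)

lemma q_real_ge (m : ℕ) : (3 : ℝ) ≤ q m := by exact_mod_cast q_ge m

/-- `H n` is at most a constant times `log log n` -/
lemma H_upper (hM1 : StM1) (hB : StB) (hL : StL) : ∃ C : ℝ, 0 < C ∧ ∃ N : ℕ, ∀ n : ℕ, N ≤ n →
    Odd n → H n ≤ C * Real.log (Real.log n) := by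
  obtain ⟨c, C, hc, hC, h1⟩ := hM1
  obtain ⟨c', C', hc', hC', h2⟩ := hB
  -- `log n ≥ 1 / c'` and `log log n ≥ 1`
  have hlog : Tendsto (fun n : ℕ => Real.log n) atTop atTop :=
    Real.tendsto_log_atTop.comp tendsto_natCast_atTop_atTop
  have hll : Tendsto (fun n : ℕ => Real.log (Real.log n)) atTop atTop :=
    Real.tendsto_log_atTop.comp hlog
  obtain ⟨N, hN⟩ := eventually_atTop.1
    ((hlog.eventually_ge_atTop (max 1 (1 / c'))).and (hll.eventually_ge_atTop 1))
  refine ⟨2 * C + 10, by linarith, N, fun n hn hodd => ?_⟩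
  obtain ⟨h3, h4⟩ := hN n hn
  have hl1 : 1 ≤ Real.log n := (le_max_left _ _).trans h3
  have hl2 : 1 / c' ≤ Real.log n := (le_max_right _ _).trans h3
  obtain ⟨r, hr1, hr2⟩ := small n hodd
  have h0 : HP 0 = 1 := by simp [HP]
  have h01 : HP 1 ≤ 10 := by
    rw [HP_succ, h0]
    have := q_real_ge 0
    have h5 : (1 : ℝ) / (q 0 - 1) ≤ 1 := by
      rw [div_le_one (by linarith)]; linarith
    linarith
  by_cases hr : r ≤ 1
  · have : HP r ≤ HP 1 := HP_mono hr
    nlinarith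
  push Not at hr
  have hq5 : 5 ≤ q r := by
    have h5 : q 0 < q 1 := q_mono (by norm_num)
    have h6 : q 1 < q r := q_mono hr
    have := q_ge 0
    omega
  have h6 := (h1 (q r - 1) (by omega)).2
  rw [← hL r] at h6
  have h7 := (h2 r (by omega)).1
  have hPr : (0 : ℝ) < P r := by exact_mod_cast (P_odd r).pos
  have h8 : Real.log (P r) ≤ Real.log n := Real.log_le_log hPr (by exact_mod_cast hr1)
  have h9 : ((q r - 1 : ℕ) : ℝ) ≤ Real.log n * Real.log n := by
    have e1 : ((q r - 1 : ℕ) : ℝ) ≤ q r := by exact_mod_cast Nat.sub_le _ _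
    have e2 : (q r : ℝ) ≤ (1 / c') * Real.log n := by
      rw [one_div, ← div_eq_inv_mul, le_div_iff₀ hc']
      linarith
    have e3 : (1 / c') * Real.log n ≤ Real.log n * Real.log n :=
      mul_le_mul_of_nonneg_right hl2 (by linarith)
    linarith
  have h10 : Real.log ((q r - 1 : ℕ) : ℝ) ≤ 2 * Real.log (Real.log n) := by
    have e1 : (0 : ℝ) < ((q r - 1 : ℕ) : ℝ) := by
      have : 0 < q r - 1 := by omega
      exact_mod_cast this
    have e2 := Real.log_le_log e1 h9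
    rw [Real.log_mul (by linarith) (by linarith)] at e2
    linarith
  have h11 : C * Real.log ((q r - 1 : ℕ) : ℝ) ≤ C * (2 * Real.log (Real.log n)) :=
    mul_le_mul_of_nonneg_left h10 hC.le
  nlinarith

/-- for every large `n` there is `m` with `P (m + 1) < n ≤ P (m + 2)` -/
lemma exists_m {n : ℕ} (hn : P 1 < n) : ∃ m, P (m + 1) < n ∧ n ≤ P (m + 2) := by
  classical
  have h : ∃ r, n ≤ P r := ⟨n, (P_mono.le_apply (x := n))⟩
  have h1 := Nat.find_spec h
  have h2 : 2 ≤ Nat.find h := by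
    by_contra h3
    have h4 : Nat.find h ≤ 1 := by omega
    have h5 : P (Nat.find h) ≤ P 1 := P_mono.monotone h4
    omega
  obtain ⟨m, hm⟩ : ∃ m, Nat.find h = m + 2 := ⟨Nat.find h - 2, by omega⟩
  refine ⟨m, ?_, hm ▸ h1⟩
  have h3 := Nat.find_min h (m := m + 1) (by omega)
  omega

/-- large records have a large prime factor and a large value of `H` -/
lemma rec_large {α : ℝ} (hα : 0 < α) (hM1 : StM1) (hM2 : StM2) (hB : StB) (hL : StL) :
    ∃ c : ℝ, 0 < c ∧ ∃ N : ℕ, ∀ n : ℕ, N ≤ n → Rec α n → 5 ≤ H n ∧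
      ∃ Q : ℕ, Q.Prime ∧ Q ∣ n ∧ 5 ≤ Q ∧ c * Real.log n ≤ Q := by
  obtain ⟨c1, C1, hc1, hC1, h1⟩ := hM1
  obtain ⟨ε, δ, hε0, hε1, hδ, x₀, h2⟩ := hM2
  obtain ⟨c3, C3, hc3, hC3, h3⟩ := hB
  set K := max 1 α with hK
  have hK1 : 1 ≤ K := le_max_left _ _
  -- conditions on `X = q m - 1`
  have hX : Tendsto (fun X : ℕ => Real.log X) atTop atTop :=
    Real.tendsto_log_atTop.comp tendsto_natCast_atTop_atTop
  have hX1 : Tendsto (fun X : ℕ => C1 * (Real.log X / X) * (2 * K)) atTop (𝓝 0) := by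
    have h5 : Tendsto (fun x : ℝ => Real.log x / x) atTop (𝓝 0) := by
      have := Real.isLittleO_log_id_atTop.tendsto_div_nhds_zero
      simpa using this
    have h6 := h5.comp (tendsto_natCast_atTop_atTop (R := ℝ))
    have h7 := (h6.const_mul C1).mul_const (2 * K)
    simpa using h7
  have hXc : Tendsto (fun X : ℕ => (X : ℝ)) atTop atTop := tendsto_natCast_atTop_atTop
  obtain ⟨X₀, hX₀⟩ := eventually_atTop.1
    (((hX.eventually_ge_atTop (10 / c1)).and
      (hX1.eventually_lt_const (show (0 : ℝ) < min δ 1 by positivity))).and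
      ((eventually_ge_atTop x₀).and ((eventually_ge_atTop 100).and
        (hXc.eventually_ge_atTop (10 / ε)))))
  have hlog : Tendsto (fun n : ℕ => Real.log n) atTop atTop :=
    Real.tendsto_log_atTop.comp tendsto_natCast_atTop_atTop
  obtain ⟨N, hN⟩ := eventually_atTop.1
    ((hlog.eventually_ge_atTop (4 * C3 * (X₀ + 1))).and (eventually_gt_atTop (P 1)))
  refine ⟨ε / (8 * C3), by positivity, N, fun n hn hrec => ?_⟩
  obtain ⟨h4, h5⟩ := hN n hn
  obtain ⟨m, hm1, hm2⟩ := exists_m h5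
  have hn0 : 0 < n := by omega
  have hnr : (0 : ℝ) < n := by exact_mod_cast hn0
  -- `log n ≤ 4 C3 q m`
  have h6 : Real.log n ≤ 4 * C3 * q m := by
    have e1 : Real.log n ≤ Real.log (P (m + 2)) :=
      Real.log_le_log hnr (by exact_mod_cast hm2)
    have e2 := (h3 (m + 2) (by omega)).2
    have e3 : (q (m + 2) : ℝ) ≤ 4 * q m := by
      have a1 : q (m + 1 + 1) ≤ 2 * q (m + 1) := q_le (m + 1)
      have a2 : q (m + 1) ≤ 2 * q m := q_le m
      have : q (m + 2) ≤ 4 * q m := by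
        have a3 : q (m + 2) = q (m + 1 + 1) := rfl
        omega
      exact_mod_cast this
    have e4 : C3 * q (m + 2) ≤ C3 * (4 * q m) := mul_le_mul_of_nonneg_left e3 hC3.le
    linarith
  have h7 : X₀ + 1 ≤ q m := by
    have e1 : 4 * C3 * ((X₀ : ℝ) + 1) ≤ 4 * C3 * q m := h4.trans h6
    have e2 : (X₀ : ℝ) + 1 ≤ q m := le_of_mul_le_mul_left e1 (by positivity)
    exact_mod_cast e2
  obtain ⟨⟨g1, g2⟩, g3, g4, g5⟩ := hX₀ (q m - 1) (by omega)
  set X := q m - 1 with hXdef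
  have hqX : (q m : ℝ) = X + 1 := by
    have : q m = X + 1 := by have := q_ge m; omega
    exact_mod_cast this
  have hX0 : (100 : ℝ) ≤ X := by exact_mod_cast g4
  have hE := h1 X (by omega)
  have hHP : HP m = E X := hL m
  have hE10 : 10 ≤ E X := by
    have : c1 * (10 / c1) ≤ c1 * Real.log X := mul_le_mul_of_nonneg_left g1 hc1.le
    rw [mul_div_cancel₀ _ hc1.ne'] at this
    linarith [hE.1]
  -- the comparison number
  obtain ⟨k, hk1, hk2, hk3, hk4⟩ := exists_k0 n m hm1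
  have hkND : ND k := nd k hk2 (by rw [hHP] at hk3; linarith)
  have hcmp := hrec.2 k hk1 hkND
  have h2q0 : (0 : ℝ) ≤ 2 / q m := by positivity
  have h2q1 : (2 : ℝ) / q m < 1 := by
    rw [div_lt_one (by rw [hqX]; linarith), hqX]; linarith
  have hlin := rpow_lin hα h2q0 h2q1
  have hkα : (n : ℝ) ^ α * (1 - 2 / q m) ^ α ≤ (k : ℝ) ^ α := by
    rw [← Real.mul_rpow hnr.le (by linarith)]
    exact Real.rpow_le_rpow (mul_nonneg hnr.le (by linarith)) hk4 hα.le
  have hna : 0 < (n : ℝ) ^ α := by positivity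
  -- `(E X - 2) (1 - K * (2 / q)) ≤ H n - 2`
  have hmain : (E X - 2) * (1 - K * (2 / q m)) ≤ H n - 2 := by
    have e1 : (E X - 2) * ((n : ℝ) ^ α * (1 - K * (2 / q m))) ≤ (H n - 2) * (n : ℝ) ^ α := by
      have a1 : (E X - 2) * ((n : ℝ) ^ α * (1 - K * (2 / q m))) ≤
          (E X - 2) * ((n : ℝ) ^ α * (1 - 2 / q m) ^ α) :=
        mul_le_mul_of_nonneg_left (mul_le_mul_of_nonneg_left hlin hna.le) (by linarith)
      have a2 : (E X - 2) * ((n : ℝ) ^ α * (1 - 2 / q m) ^ α) ≤ (E X - 2) * (k : ℝ) ^ α :=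
        mul_le_mul_of_nonneg_left hkα (by linarith)
      have a3 : (E X - 2) * (k : ℝ) ^ α ≤ (H k - 2) * (k : ℝ) ^ α :=
        mul_le_mul_of_nonneg_right (by rw [hHP] at hk3; linarith) (by positivity)
      unfold g at hcmp
      linarith
    have e2 : ((E X - 2) * (1 - K * (2 / q m))) * (n : ℝ) ^ α ≤ (H n - 2) * (n : ℝ) ^ α := by
      calc _ = (E X - 2) * ((n : ℝ) ^ α * (1 - K * (2 / q m))) := by ring
        _ ≤ _ := e1
    exact le_of_mul_le_mul_right e2 hna
  have hsmall : (E X - 2) * (K * (2 / q m)) < min δ 1 := by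
    have e1 : (E X - 2) * (K * (2 / q m)) ≤ C1 * (Real.log X / X) * (2 * K) := by
      have a1 : (2 : ℝ) / q m ≤ 2 / X := by
        rw [hqX]; exact div_le_div_of_nonneg_left (by norm_num) (by linarith) (by linarith)
      have a2 : K * (2 / q m) ≤ K * (2 / X) := mul_le_mul_of_nonneg_left a1 (by linarith)
      have a3 : (0 : ℝ) ≤ K * (2 / X) := by positivity
      calc (E X - 2) * (K * (2 / q m)) ≤ (E X - 2) * (K * (2 / X)) :=
            mul_le_mul_of_nonneg_left a2 (by linarith)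
        _ ≤ (C1 * Real.log X) * (K * (2 / X)) :=
            mul_le_mul_of_nonneg_right (by linarith [hE.2]) a3
        _ = C1 * (Real.log X / X) * (2 * K) := by ring
    exact e1.trans_lt g2
  have hs1 : (E X - 2) * (K * (2 / q m)) < 1 := hsmall.trans_le (min_le_right _ _)
  have hs2 : (E X - 2) * (K * (2 / q m)) < δ := hsmall.trans_le (min_le_left _ _)
  refine ⟨by nlinarith, ?_⟩
  by_contra hcon
  push Not at hcon
  -- all prime factors are at most `y`
  set y : ℕ := ⌊ε * X⌋₊ with hy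
  have hy1 : (y : ℝ) ≤ ε * X := Nat.floor_le (by positivity)
  have hy2 : ε * X < y + 1 := Nat.lt_floor_add_one _
  have hεX : 10 ≤ ε * X := by
    have : ε * (10 / ε) ≤ ε * X := mul_le_mul_of_nonneg_left g5 hε0.le
    rwa [mul_div_cancel₀ _ hε0.ne'] at this
  have hall : ∀ p, p.Prime → p ∣ n → p ≤ y := by
    intro p hp hpn
    by_contra hpy
    push Not at hpy
    have e1 : (y : ℝ) + 1 ≤ p := by exact_mod_cast hpy
    have e2 : (9 : ℝ) ≤ p := by linarith
    have e3 : 5 ≤ p := by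
      have : (5 : ℝ) ≤ p := by linarith
      exact_mod_cast this
    have e4 := hcon p hp hpn e3
    have e5 : ε / (8 * C3) * Real.log n ≤ ε / (8 * C3) * (4 * C3 * q m) :=
      mul_le_mul_of_nonneg_left h6 (by positivity)
    have e6 : ε / (8 * C3) * (4 * C3 * q m) = ε * q m / 2 := by
      field_simp; ring
    have e7 : ε * q m / 2 ≤ ε * X := by
      rw [hqX]
      nlinarith
    linarith
  have hHn := H_le_E hrec.1.1 hall
  have hlast := h2 X y g3 hy1
  nlinarith

/-- **The upper bound.** -/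
theorem upper {α : ℝ} (hα : 0 < α) (hM1 : StM1) (hM2 : StM2) (hB : StB) (hL : StL) :
    ∃ C : ℝ, 0 < C ∧ ∃ N : ℕ, ∀ n : ℕ, N ≤ n → Rec α n →
      ∃ k < n, ND k ∧
        g α n - g α k ≤ C * ((n : ℝ) ^ α * Real.log (Real.log n) / Real.log n) := by
  obtain ⟨C, hC, N1, h1⟩ := H_upper hM1 hB hL
  obtain ⟨c, hc, N2, h2⟩ := rec_large hα hM1 hM2 hB hL
  have hlog : Tendsto (fun n : ℕ => Real.log n) atTop atTop :=
    Real.tendsto_log_atTop.comp tendsto_natCast_atTop_atTop
  obtain ⟨N3, hN3⟩ := eventually_atTop.1 (hlog.eventually_ge_atTop 1)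
  refine ⟨(1 + 2 * max 1 α) * (C / c), by positivity, max N1 (max N2 N3), fun n hn hrec => ?_⟩
  have hn1 : N1 ≤ n := (le_max_left _ _).trans hn
  have hn2 : N2 ≤ n := (le_max_left _ _).trans ((le_max_right _ _).trans hn)
  have hn3 : N3 ≤ n := (le_max_right _ _).trans ((le_max_right _ _).trans hn)
  obtain ⟨h3, Q, hQ, hd, h5, h6⟩ := h2 n hn2 hrec
  obtain ⟨k, hk, hk1, hk2⟩ := drop hα hrec.1.1 hQ hd h5 h3
  refine ⟨k, hk, hk1, hk2.trans ?_⟩
  have h7 := h1 n hn1 hrec.1.1
  have h8 := hN3 n hn3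
  have hK : (0 : ℝ) < 1 + 2 * max 1 α := by positivity
  rw [mul_assoc]
  apply mul_le_mul_of_nonneg_left _ hK.le
  have hna : (0 : ℝ) ≤ (n : ℝ) ^ α := by positivity
  have hcl : 0 < c * Real.log n := by positivity
  calc H n * (n : ℝ) ^ α / Q ≤ H n * (n : ℝ) ^ α / (c * Real.log n) :=
        div_le_div_of_nonneg_left (mul_nonneg (by linarith) hna) hcl h6
    _ ≤ (C * Real.log (Real.log n)) * (n : ℝ) ^ α / (c * Real.log n) := by
        apply div_le_div_of_nonneg_right _ hcl.le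
        exact mul_le_mul_of_nonneg_right h7 hna
    _ = C / c * ((n : ℝ) ^ α * Real.log (Real.log n) / Real.log n) := by
        field_simp

end Pool.Agent.H31.RG
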