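import Pool.Agent.H31.RG.Fin

set_option autoImplicit false

namespace Pool.Agent.H31.RG

open Filter Topology
open Pool.Agent.Results.MP_e83726_nt.Gaps (q P HP H ND nd H_mono H_big small P_odd P_mono H_P
  HP_mono q_mono q_prime q_ge q_le q_surj one_le fac)

/-- the size of the jump at the products of the first odd primes -/
lemma jump_size (hM1 : StM1) (hB : StB) (hL : StL) : ∃ c : ℝ, 0 < c ∧ ∃ M₀ : ℕ, ∀ M : ℕ, M₀ ≤ M →
    c * (Real.log (Real.log (P (M + 1))) / Real.log (P (M + 1))) ≤ HP M / (q M - 1) := by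
  obtain ⟨c1, C1, hc1, hC1, h1⟩ := hM1
  obtain ⟨c3, C3, hc3, hC3, h3⟩ := hB
  obtain ⟨Y, hY⟩ := exists_nat_ge (4 * C3)
  refine ⟨c1 * c3 / 2, by positivity, Y + 10, fun M hM => ?_⟩
  have hqM : M + 3 ≤ q M := by
    clear hM
    induction M with
    | zero => exact q_ge 0
    | succ M ih =>
      have : q M < q (M + 1) := q_mono (Nat.lt_succ_self M)
      omega
  obtain ⟨X, hX⟩ : ∃ X, q M = X + 1 := ⟨q M - 1, by omega⟩
  have hX3 : 10 ≤ X := by omega
  have hXr : (10 : ℝ) ≤ X := by exact_mod_cast hX3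
  have hXY : 4 * C3 ≤ X := by
    have : Y ≤ X := by omega
    exact hY.trans (by exact_mod_cast this)
  have hqr : (q M : ℝ) = X + 1 := by exact_mod_cast hX
  have e1 : c1 * Real.log X ≤ HP M := by
    rw [hL M, hX, Nat.add_sub_cancel]
    exact (h1 X (by omega)).1
  obtain ⟨e2, e3⟩ := h3 (M + 1) (by omega)
  set L := Real.log (P (M + 1)) with hLdef
  have e4 : (q M : ℝ) ≤ q (M + 1) := by exact_mod_cast (q_mono (Nat.lt_succ_self M)).le
  have e5 : (q (M + 1) : ℝ) ≤ 2 * q M := by exact_mod_cast q_le M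
  have e6 : c3 * X ≤ L := by
    have : c3 * (X : ℝ) ≤ c3 * q (M + 1) := mul_le_mul_of_nonneg_left (by linarith) hc3.le
    linarith
  have e7 : L ≤ X * X := by
    have a1 : C3 * q (M + 1) ≤ C3 * (2 * (X + 1)) :=
      mul_le_mul_of_nonneg_left (by linarith) hC3.le
    nlinarith
  have hL0 : 0 < L := lt_of_lt_of_le (by positivity) e6
  have e8 : Real.log L ≤ 2 * Real.log X := by
    have := Real.log_le_log hL0 e7
    rw [Real.log_mul (by linarith) (by linarith)] at this
    linarith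
  have hlX : 0 ≤ Real.log X := Real.log_nonneg (by linarith)
  rw [hqr, add_sub_cancel_right]
  calc c1 * c3 / 2 * (Real.log L / L) = (c1 * c3 / 2 * Real.log L) / L := by ring
    _ ≤ (c1 * c3 / 2 * (2 * Real.log X)) / L := by
        apply div_le_div_of_nonneg_right _ hL0.le
        exact mul_le_mul_of_nonneg_left e8 (by positivity)
    _ = (c1 * c3 * Real.log X) / L := by ring
    _ ≤ (c1 * c3 * Real.log X) / (c3 * X) :=
        div_le_div_of_nonneg_left (by positivity) (by positivity) e6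
    _ = (c1 * Real.log X) / X := by
        field_simp
    _ ≤ HP M / X := div_le_div_of_nonneg_right e1 (by linarith)

theorem main (hM1 : StM1) (hM2 : StM2) (hB : StB) (hL : StL) (α : ℝ) (hα : 0 < α) :
    ∃ c C : ℝ, 0 < c ∧ 0 < C ∧
      (∀ i : ℕ, ∃ j, i ≤ j ∧ c * ((b α (j + 1) : ℝ) ^ α * Real.log (Real.log (b α (j + 1))) /
        Real.log (b α (j + 1))) ≤ g α (b α (j + 1)) - g α (b α j)) ∧
      ∃ j₀ : ℕ, ∀ j : ℕ, j₀ ≤ j → g α (b α (j + 1)) - g α (b α j) ≤
        C * ((b α (j + 1) : ℝ) ^ α * Real.log (Real.log (b α (j + 1))) /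
        Real.log (b α (j + 1))) := by
  obtain ⟨c, hc, M₀, h1⟩ := jump_size hM1 hB hL
  obtain ⟨C, hC, N, h2⟩ := upper hα hM1 hM2 hB hL
  obtain ⟨r, hr⟩ := exists_four
  refine ⟨c, C, hc, hC, fun i => ?_, N, fun j hj => ?_⟩
  · obtain ⟨j, hj1, hj2, hj3⟩ := gap_P hα hr (i + M₀)
    refine ⟨j, by omega, le_trans ?_ hj3⟩
    rw [hj2]
    have h3 := h1 (r + (i + M₀) + 1) (by omega)
    have hp : (0 : ℝ) ≤ (P (r + (i + M₀) + 1 + 1) : ℝ) ^ α := by positivity
    calc _ = c * (Real.log (Real.log (P (r + (i + M₀) + 1 + 1))) /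
          Real.log (P (r + (i + M₀) + 1 + 1))) * (P (r + (i + M₀) + 1 + 1) : ℝ) ^ α := by ring
      _ ≤ _ := mul_le_mul_of_nonneg_right h3 hp
  · have h3 : j + 1 ≤ b α (j + 1) := (Nat.nth_strictMono (rec_inf hα)).le_apply
    obtain ⟨k, hk, hk1, hk2⟩ := h2 (b α (j + 1)) (by omega)
      (Nat.nth_mem_of_infinite (rec_inf hα) (j + 1))
    have h4 := prev hα j k hk hk1
    linarith

/-- the size function tends to infinity -/
lemma size_tendsto {α : ℝ} (hα : 0 < α) :
    Tendsto (fun n : ℕ => (n : ℝ) ^ α * Real.log (Real.log n) / Real.log n) atTop atTop := by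
  have h1 : Tendsto (fun x : ℝ => x ^ α / Real.log x) atTop atTop := by
    have h2 : Tendsto (fun x : ℝ => Real.log x / x ^ α) atTop (𝓝 0) :=
      (isLittleO_log_rpow_atTop hα).tendsto_div_nhds_zero
    have h3 : Tendsto (fun x : ℝ => Real.log x / x ^ α) atTop (𝓝[>] 0) := by
      rw [tendsto_nhdsWithin_iff]
      refine ⟨h2, ?_⟩
      filter_upwards [eventually_gt_atTop 1] with x hx
      exact div_pos (Real.log_pos hx) (by positivity)
    exact h3.inv_tendsto_nhdsGT_zero.congr fun x => by rw [Pi.inv_apply, inv_div]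
  have h4 : Tendsto (fun x : ℝ => Real.log (Real.log x)) atTop atTop :=
    Real.tendsto_log_atTop.comp Real.tendsto_log_atTop
  have h5 := (h1.atTop_mul_atTop₀ h4).comp (tendsto_natCast_atTop_atTop (R := ℝ))
  refine h5.congr fun n => ?_
  simp only [Function.comp_apply]
  ring

end Pool.Agent.H31.RG
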