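import Pool.Agent.H31.RG.Base

set_option autoImplicit false

namespace Pool.Agent.H31.RG

open Filter Topology
open Pool.Agent.Results.MP_e83726_nt.Gaps (q P HP H ND nd H_mono H_big small P_odd P_mono H_P
  HP_mono q_mono q_prime q_ge q_le q_surj one_le fac)

/-- the normalised surplus with the exponent `α` -/
noncomputable def g (α : ℝ) (n : ℕ) : ℝ := (H n - 2) * (n : ℝ) ^ α

/-- the records among the odd non-deficient numbers -/
def Rec (α : ℝ) (n : ℕ) : Prop := ND n ∧ ∀ k < n, ND k → g α k < g α n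

noncomputable def b (α : ℝ) (j : ℕ) : ℕ := Nat.nth (Rec α) j

lemma rec_inf {α : ℝ} (hα : 0 < α) : {n | Rec α n}.Infinite := by
  classical
  refine Set.infinite_of_forall_exists_gt fun T => ?_
  obtain ⟨M, hM⟩ := (Set.finite_le_nat T).image (g α) |>.bddAbove
  obtain ⟨N, h1, h2⟩ := H_big (|M| + 4)
  have h3 : ∃ n, ND n ∧ M < g α n := by
    refine ⟨N, nd N h1 (by linarith [abs_nonneg M]), ?_⟩
    have : (1 : ℝ) ≤ (N : ℝ) ^ α := Real.one_le_rpow (by exact_mod_cast h1.pos) hα.le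
    unfold g
    nlinarith [le_abs_self M, abs_nonneg M]
  obtain ⟨h4, h5⟩ := Nat.find_spec h3
  refine ⟨Nat.find h3, ⟨h4, fun k hk hk' => ?_⟩, ?_⟩
  · have := Nat.find_min h3 hk
    simp only [not_and, not_lt] at this
    exact (this hk').trans_lt h5
  · by_contra hc
    exact absurd (hM ⟨_, not_lt.1 hc, rfl⟩) (not_le.2 h5)

/-- all odd non-deficient numbers before the next record -/
lemma prev {α : ℝ} (hα : 0 < α) (j k : ℕ) (hk : k < b α (j + 1)) (hk' : ND k) :
    g α k ≤ g α (b α j) := by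
  classical
  by_contra hcon
  push Not at hcon
  have hex : ∃ k', ND k' ∧ g α (b α j) < g α k' := ⟨k, hk', hcon⟩
  obtain ⟨h1, h2⟩ := Nat.find_spec hex
  set k' := Nat.find hex with hk'def
  have hle : k' ≤ k := Nat.find_min' hex ⟨hk', hcon⟩
  have hbj : Rec α (b α j) := Nat.nth_mem_of_infinite (rec_inf hα) j
  have hrec : Rec α k' := by
    refine ⟨h1, fun i hi hi' => ?_⟩
    have := Nat.find_min hex hi
    simp only [not_and, not_lt] at this
    exact (this hi').trans_lt h2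
  have h3 : b α j < k' := by
    by_contra h
    rcases (not_lt.1 h).lt_or_eq with h | h
    · exact absurd (hbj.2 k' h h1) (not_lt.2 h2.le)
    · rw [h] at h2; exact lt_irrefl _ h2
  have h4 : Nat.nth (Rec α) (Nat.count (Rec α) k') = k' := Nat.nth_count hrec
  have hm := Nat.nth_strictMono (rec_inf hα)
  have h5 : j < Nat.count (Rec α) k' := by
    rw [← hm.lt_iff_lt, h4]; exact h3
  have h6 : Nat.count (Rec α) k' < j + 1 := by
    rw [← hm.lt_iff_lt, h4]; exact lt_of_le_of_lt hle hk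
  omega

lemma H_nonneg (k : ℕ) : 0 ≤ H k :=
  Finset.prod_nonneg fun p hp => zero_le_one.trans (one_le p (Nat.prime_of_mem_primeFactors hp))

lemma HP_succ (m : ℕ) : HP (m + 1) = HP m + HP m / (q m - 1) := by
  have h3 : (3 : ℝ) ≤ q m := by exact_mod_cast q_ge m
  have h : HP (m + 1) = HP m * ((q m : ℝ) / (q m - 1)) := by
    rw [HP, HP, Finset.prod_range_succ]
  rw [h]
  have : (q m : ℝ) - 1 ≠ 0 := by linarith
  field_simp
  ring

lemma jump {α : ℝ} (hα : 0 < α) (m k : ℕ) (h4 : 4 ≤ HP m) (hk : Odd k) (hlt : k < P (m + 1)) :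
    g α k + HP m / (q m - 1) * (P (m + 1) : ℝ) ^ α ≤ g α (P (m + 1)) := by
  obtain ⟨r, h1, h2⟩ := small k hk
  have h3 := h2.trans (HP_mono (Nat.lt_succ_iff.1 (P_mono.lt_iff_lt.1 (h1.trans_lt hlt))))
  have h5 : (k : ℝ) ^ α ≤ (P (m + 1) : ℝ) ^ α :=
    Real.rpow_le_rpow (by positivity) (by exact_mod_cast hlt.le) hα.le
  have h7 : (0 : ℝ) ≤ (k : ℝ) ^ α := by positivity
  unfold g
  rw [H_P, HP_succ]
  have h8 : (H k - 2) * (k : ℝ) ^ α ≤ (HP m - 2) * (k : ℝ) ^ α :=
    mul_le_mul_of_nonneg_right (by linarith) h7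
  have h9 : (HP m - 2) * (k : ℝ) ^ α ≤ (HP m - 2) * (P (m + 1) : ℝ) ^ α :=
    mul_le_mul_of_nonneg_left h5 (by linarith)
  nlinarith

lemma exists_four : ∃ r, ∀ m, r ≤ m → 4 ≤ HP m := by
  obtain ⟨N, h1, h2⟩ := H_big 4
  obtain ⟨r, -, h3⟩ := small N h1
  exact ⟨r, fun m hm => (h2.trans h3).trans (HP_mono hm)⟩

lemma rec_P {α : ℝ} (hα : 0 < α) {m : ℕ} (h4 : 4 ≤ HP m) : Rec α (P (m + 1)) := by
  refine ⟨nd _ (P_odd _) (H_P _ ▸ h4.trans (HP_mono (Nat.le_succ m))), fun k hk hk' => ?_⟩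
  have h := jump hα m k h4 hk'.1 hk
  have h5 : (0 : ℝ) < HP m / (q m - 1) * (P (m + 1) : ℝ) ^ α := by
    have := (P_odd (m + 1)).pos
    have : (3 : ℝ) ≤ q m := by exact_mod_cast q_ge m
    have h6 : (0 : ℝ) < q m - 1 := by linarith
    have h7 : (0 : ℝ) < HP m := by linarith
    positivity
  linarith

/-- the gaps before the numbers `P (m + 2)` -/
lemma gap_P {α : ℝ} (hα : 0 < α) {r : ℕ} (hr : ∀ m, r ≤ m → 4 ≤ HP m) (i : ℕ) :
    ∃ j, i ≤ j ∧ b α (j + 1) = P (r + i + 1 + 1) ∧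
      HP (r + i + 1) / (q (r + i + 1) - 1) * (P (r + i + 1 + 1) : ℝ) ^ α ≤
        g α (b α (j + 1)) - g α (b α j) := by
  classical
  have hcount : ∀ i, i ≤ Nat.count (Rec α) (P (r + i + 1)) := by
    intro i
    induction i with
    | zero => exact Nat.zero_le _
    | succ i ih =>
      have h1 : Rec α (P (r + i + 1)) := rec_P hα (hr _ (by omega))
      have h2 : P (r + i + 1) < P (r + (i + 1) + 1) := P_mono (by omega)
      have := Nat.count_strict_mono h1 h2
      omega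
  have h1 : Rec α (P (r + i + 1)) := rec_P hα (hr _ (by omega))
  have h2 : P (r + i + 1) < P (r + i + 1 + 1) := P_mono (by omega)
  have h3 := Nat.count_strict_mono h1 h2
  have h4 := hcount i
  have h5 : Rec α (P (r + i + 1 + 1)) := rec_P hα (hr _ (by omega))
  have h6 := Nat.nth_count h5
  obtain ⟨j, hj⟩ : ∃ j, Nat.count (Rec α) (P (r + i + 1 + 1)) = j + 1 :=
    ⟨_, (Nat.succ_pred_eq_of_pos (by omega)).symm⟩
  rw [hj] at h6
  have h7 : b α (j + 1) = P (r + i + 1 + 1) := h6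
  have h8 : b α j < b α (j + 1) := Nat.nth_strictMono (rec_inf hα) (Nat.lt_succ_self j)
  refine ⟨j, by omega, h7, ?_⟩
  have h9 := jump hα (r + i + 1) (b α j) (hr _ (by omega))
    (Nat.nth_mem_of_infinite (rec_inf hα) j).1.1 (h7 ▸ h8)
  rw [h7]
  linarith

end Pool.Agent.H31.RG
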