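import Pool.Agent.H31.RG.Main

set_option autoImplicit false

namespace Pool.Agent.H31.RG

open Filter Topology
open Pool.Agent.Results.MP_e83726_nt.Gaps (q P HP H ND nd H_mono H_big small P_odd P_mono H_P
  HP_mono q_mono q_prime q_ge q_le q_surj one_le fac)

lemma rpow_lin {α : ℝ} (hα : 0 < α) {x : ℝ} (h0 : 0 ≤ x) (h1 : x < 1) :
    1 - (max 1 α) * x ≤ (1 - x) ^ α := by
  rcases le_total α 1 with h | h
  · rw [max_eq_left h, one_mul]
    calc 1 - x = (1 - x) ^ (1 : ℝ) := (Real.rpow_one _).symm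
      _ ≤ (1 - x) ^ α := Real.rpow_le_rpow_of_exponent_ge (by linarith) (by linarith) h
  · rw [max_eq_right h]
    have := one_add_mul_self_le_rpow_one_add (s := -x) (p := α) (by linarith) h
    calc 1 - α * x = 1 + α * -x := by ring
      _ ≤ (1 + -x) ^ α := this
      _ = (1 - x) ^ α := by ring_nf

lemma exists_k0 (n m : ℕ) (h : P (m + 1) < n) :
    ∃ k < n, Odd k ∧ HP m ≤ H k ∧ (n : ℝ) * (1 - 2 / q m) ≤ k := by
  have hP : 0 < P m := (P_odd m).pos
  have hPs : P (m + 1) = P m * q m := by rw [P, P, Finset.prod_range_succ]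
  have hq := q_ge m
  set u := (n - 1) / P m with hu
  have hu1 : P m * u ≤ n - 1 := Nat.mul_div_le _ _
  have hu2 : n - 1 < P m * (u + 1) := Nat.lt_mul_div_succ _ hP
  have hu3 : q m ≤ u := by
    rw [hu, Nat.le_div_iff_mul_le hP]
    rw [mul_comm, ← hPs]; omega
  obtain ⟨t, ht1, ht2, ht3⟩ : ∃ t, Odd t ∧ t ≤ u ∧ u ≤ t + 1 := by
    rcases Nat.even_or_odd u with h1 | h1
    · exact ⟨u - 1, Nat.Even.sub_odd (by omega) h1 odd_one, by omega, by omega⟩
    · exact ⟨u, h1, le_rfl, by omega⟩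
  have htpos : 0 < t := by omega
  refine ⟨P m * t, ?_, (P_odd m).mul ht1, ?_, ?_⟩
  · have : P m * t ≤ P m * u := Nat.mul_le_mul_left _ ht2
    omega
  · rw [← H_P]
    exact H_mono _ _ (Nat.mul_pos hP htpos).ne' (Dvd.intro _ rfl)
  · have h1 : n ≤ P m * t + 2 * P m := by
      have : P m * (u + 1) ≤ P m * (t + 2) := Nat.mul_le_mul_left _ (by omega)
      have h2 : P m * (t + 2) = P m * t + 2 * P m := by ring
      omega
    have h2 : (n : ℝ) ≤ P m * t + 2 * P m := by exact_mod_cast h1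
    have h3 : (P m : ℝ) * q m ≤ n := by
      have : P m * q m ≤ n := by rw [← hPs]; exact h.le
      exact_mod_cast this
    have hq0 : (0 : ℝ) < q m := by have : (3 : ℝ) ≤ q m := by exact_mod_cast hq
                                   linarith
    have h4 : (P m : ℝ) ≤ n / q m := by rw [le_div_iff₀ hq0]; exact h3
    push_cast
    have h5 : (n : ℝ) * (1 - 2 / q m) = n - 2 * (n / q m) := by field_simp
    rw [h5]
    linarith

lemma H_le_E {n y : ℕ} (hn : Odd n) (h : ∀ p, p.Prime → p ∣ n → p ≤ y) : H n ≤ E y := by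
  unfold H E
  refine Finset.prod_le_prod_of_subset_of_one_le ?_ ?_ ?_
  · intro p hp
    have h1 := Nat.prime_of_mem_primeFactors hp
    have h2 := Nat.dvd_of_mem_primeFactors hp
    rw [Finset.mem_filter, Finset.mem_Icc]
    refine ⟨⟨?_, h p h1 h2⟩, h1⟩
    have h3 : p ≠ 2 := by
      rintro rfl
      exact (Nat.not_even_iff_odd.2 hn) (even_iff_two_dvd.2 h2)
    have := h1.two_le
    omega
  · intro p hp
    exact zero_le_one.trans (one_le p (Nat.prime_of_mem_primeFactors hp))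
  · intro p hp _
    exact one_le p (Finset.mem_filter.1 hp).2

lemma H_split {Q m : ℕ} (hQ : Q.Prime) (hm : m ≠ 0) : H (Q * m) ≤ H m * ((Q : ℝ) / (Q - 1)) := by
  have h1 := one_le Q hQ
  have h2 : (Q * m).primeFactors = insert Q m.primeFactors := by
    rw [Nat.primeFactors_mul hQ.ne_zero hm, hQ.primeFactors]
    rfl
  by_cases h : Q ∈ m.primeFactors
  · have : H (Q * m) = H m := by
      unfold H; rw [h2, Finset.insert_eq_of_mem h]
    rw [this]
    nlinarith [H_nonneg m]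
  · have : H (Q * m) = (Q : ℝ) / (Q - 1) * H m := by
      unfold H; rw [h2, Finset.prod_insert h]
    rw [this, mul_comm]

/-- the odd number `m (Q - 2)` before `n = Q m` -/
lemma drop {α : ℝ} (hα : 0 < α) {n Q : ℕ} (hn : Odd n) (hQ : Q.Prime) (hd : Q ∣ n) (h5 : 5 ≤ Q)
    (hH : 5 ≤ H n) :
    ∃ k < n, ND k ∧ g α n - g α k ≤ (1 + 2 * max 1 α) * (H n * (n : ℝ) ^ α / Q) := by
  obtain ⟨m, rfl⟩ := hd
  have hm : Odd m := (Nat.odd_mul.1 hn).2
  have hm0 : 0 < m := hm.pos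
  have hQo : Odd Q := (Nat.odd_mul.1 hn).1
  have h1 := H_split hQ hm0.ne'
  have hQr : (5 : ℝ) ≤ Q := by exact_mod_cast h5
  have hQ1 : (0 : ℝ) < Q - 1 := by linarith
  have h2 : H (Q * m) * (1 - 1 / Q) ≤ H m := by
    have h3 : H (Q * m) * (Q - 1) ≤ H m * Q := by
      rw [mul_div_assoc', le_div_iff₀ hQ1] at h1
      exact h1
    have h4 : H (Q * m) * (1 - 1 / Q) = H (Q * m) * (Q - 1) / Q := by
      field_simp
    rw [h4, div_le_iff₀ (by linarith)]
    exact h3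
  have h3 : H m ≤ H (m * (Q - 2)) :=
    H_mono _ _ (Nat.mul_pos hm0 (by omega)).ne' (Dvd.intro _ rfl)
  have hko : Odd (m * (Q - 2)) := hm.mul (Nat.Odd.sub_even (by omega) hQo even_two)
  have hlt : m * (Q - 2) < Q * m := by
    rw [mul_comm Q m]
    exact Nat.mul_lt_mul_of_pos_left (by omega) hm0
  have h15 : (1 : ℝ) / Q ≤ 1 / 5 := one_div_le_one_div_of_le (by norm_num) hQr
  have h4 : 4 ≤ H (m * (Q - 2)) := by nlinarith
  refine ⟨m * (Q - 2), hlt, nd _ hko h4, ?_⟩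
  set N : ℝ := ((Q * m : ℕ) : ℝ) with hN
  have hN0 : 0 < N := by rw [hN]; exact_mod_cast Nat.mul_pos (by omega) hm0
  have hk : ((m * (Q - 2) : ℕ) : ℝ) = N * (1 - 2 / Q) := by
    rw [hN]
    push_cast [Nat.cast_sub (show 2 ≤ Q by omega)]
    field_simp
  have h2Q : (2 : ℝ) / Q ≤ 2 / 5 := by
    have : (2 : ℝ) / Q = 2 * (1 / Q) := by ring
    rw [this]; linarith
  have h2Q0 : (0 : ℝ) ≤ 2 / Q := by positivity
  have h6 := rpow_lin hα h2Q0 (by linarith)
  have h7 : ((m * (Q - 2) : ℕ) : ℝ) ^ α = N ^ α * (1 - 2 / Q) ^ α := by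
    rw [hk, Real.mul_rpow hN0.le (by linarith)]
  have hNa : 0 ≤ N ^ α := by positivity
  unfold g
  rw [← hN, h7]
  set K := max 1 α with hK
  have hK1 : 1 ≤ K := le_max_left _ _
  set h := H (Q * m) with hh
  set y := (1 - 2 / (Q : ℝ)) ^ α with hy
  have h8 : h * (1 - 1 / Q) - 2 ≤ H (m * (Q - 2)) - 2 := by linarith
  have h9 : 0 ≤ h * (1 - 1 / Q) - 2 := by nlinarith
  have hy0 : 0 ≤ y := Real.rpow_nonneg (by linarith) _
  have h10 : (h * (1 - 1 / Q) - 2) * (1 - K * (2 / Q)) ≤ (H (m * (Q - 2)) - 2) * y := by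
    calc (h * (1 - 1 / Q) - 2) * (1 - K * (2 / Q)) ≤ (h * (1 - 1 / Q) - 2) * y :=
          mul_le_mul_of_nonneg_left h6 h9
      _ ≤ _ := mul_le_mul_of_nonneg_right h8 hy0
  have h11 : (h - 2) - (H (m * (Q - 2)) - 2) * y ≤ (1 + 2 * K) * (h / Q) := by
    have e1 : h * (1 - 1 / Q) - 2 ≤ h := by
      have : 0 ≤ h * (1 / Q) := by positivity
      nlinarith
    have e2 : (h * (1 - 1 / Q) - 2) * (K * (2 / Q)) ≤ h * (K * (2 / Q)) :=
      mul_le_mul_of_nonneg_right e1 (by positivity)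
    have e3 : (1 + 2 * K) * (h / Q) = h * (1 / Q) + h * (K * (2 / Q)) := by ring
    rw [e3]
    nlinarith
  calc (h - 2) * N ^ α - (H (m * (Q - 2)) - 2) * (N ^ α * y)
      = ((h - 2) - (H (m * (Q - 2)) - 2) * y) * N ^ α := by ring
    _ ≤ ((1 + 2 * K) * (h / Q)) * N ^ α := mul_le_mul_of_nonneg_right h11 hNa
    _ = (1 + 2 * K) * (h * N ^ α / Q) := by ring

end Pool.Agent.H31.RG
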